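import Pool.Agent.R629.NF.Conc6

/-!
# MP_3099cf_nt: elliptic curves over imaginary quadratic fields, mod p eigenforms and edge values

Let `K` be an imaginary quadratic field of class number one, `p > 3`, `Ω` an algebraic closure of `ℚ`
containing `K`, `G` the absolute Galois group of `K` and `k` an algebraic closure of `𝔽_p`; let
`θ : k → ℂ` be injective with `|θ(z)| = 1` for `z ≠ 0`, for instance a Teichmüller lift.  Let `E_i`,
`i ∈ I`, be elliptic curves over `K` for which the representation `R_i` on `E_i[p]` is absolutely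
irreducible, given by the integers `a_v(E_i)`, and let `c_j`, `j ∈ J`, be mod `p` eigenforms of levels
`lvl j` with eigenvalues `a_j(v) ∈ k` whose attached representations `H_j` are irreducible.

The theorem: `a_v(E_i) = a_j(v)` in `k` for an eigenform `c_j` with level in a set `Λ` stable under
complex conjugation and all good `v` if and only if the boundary value `l_i(t)` on `Re s = 1` of the
Euler product of the lifted eigenvalues of Frobenius on `E_i[p]` is algebraic over the field generated by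
countably many constants, the boundary values of the `c_j` with level in `Λ`, `t` and the `p^{-it}`.  If
no two of the `E_i[p]` are isomorphic, up to conjugation, then the values of those which are not
congruent to an eigenform are algebraically independent.  Chebotarev's theorem is not assumed.
-/

set_option autoImplicit false

namespace Pool.Agent.Results.MP_3099cf_nt.CongruencesOnTheEdge

open MeasureTheory NumberField IsDedekindDomain
open Pool.Agent.R629.NF
open Pool.Agent.R629.SP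
open Pool.Agent.TH339.MP (nm pr)

/-- The ideal `s⁻¹(N)`. -/
noncomputable def conjIdeal {K Ω : Type} [Field K] [NumberField K] [IsGalois ℚ K] [Field Ω]
    [CharZero Ω] [IsAlgClosure ℚ Ω] [Algebra K Ω] (s : Gal(Ω/ℚ)) (N : Ideal (𝓞 K)) :
    Ideal (𝓞 K) :=
  N.comap (MulSemiringAction.toRingHom Gal(K/ℚ) (𝓞 K) (AlgEquiv.restrictNormalHom K s))

/-- **Elliptic curves, mod p eigenforms and values on the edge.** -/
theorem result {K Ω : Type} [Field K] [NumberField K] [IsGalois ℚ K]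
    [NumberField.IsTotallyComplex K] (_ : Module.finrank ℚ K = 2)
    (_ : NumberField.classNumber K = 1)
    [Field Ω] [CharZero Ω] [IsAlgClosure ℚ Ω] [Algebra K Ω]
    {p : ℕ} [Fact p.Prime] (_ : 3 < p) {k : Type} [Field k] [IsAlgClosed k] [CharP k p]
    {S₀ : Finset ℕ} (hS₀ : Unram K S₀)
    {F : HeightOneSpectrum (𝓞 K) → GalOf K Ω} (hF : ∀ v, IsFrobAt Ω v (F v : Gal(Ω/ℚ)))
    {θ : k → ℂ} (hθ : Function.Injective θ) (hθ1 : ∀ z : k, z ≠ 0 → ‖θ z‖ = 1)
    {J : Type} [Countable J] {lvl : J → Ideal (𝓞 K)}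
    {a : J → HeightOneSpectrum (𝓞 K) → k} {H : J → GalOf K Ω →* GL (Fin 2) k}
    {SJ : J → Finset ℕ} (hSJ : ∀ j, S₀ ⊆ SJ j)
    (hH : ∀ j, IsSmooth (H j)) (hHirr : ∀ j, (rep (H j)).IsIrreducible)
    (hatt : ∀ j, IsAttached F (SJ j) (a j) (H j))
    (hstab : ∀ j (s : Gal(Ω/ℚ)), ∃ j', lvl j' = conjIdeal s (lvl j) ∧
      Nonempty ((rep ((H j).comp (conjBy K s))).Equiv (rep (H j'))))
    {I : Type} [Countable I] {aE : I → HeightOneSpectrum (𝓞 K) → ℤ}
    {R : I → GalOf K Ω →* GL (Fin 2) k} {SI : I → Finset ℕ} (hSI : ∀ i, S₀ ⊆ SI i)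
    (hR : ∀ i, IsSmooth (R i)) (hRirr : ∀ i, (rep (R i)).IsIrreducible)
    (hE : ∀ i, IsAttached F (SI i) (fun v => (aE i v : k)) (R i))
    (hnc : ∀ i i', i' ≠ i → ¬ IsConjugate (conjBy (Ω := Ω) K) (R i) (R i')) :
    ((∀ i, ∃ l : ℝ → ℂ, IsEdgeOf (SI i) 2 (frobLift θ F (R i)) 0 l) ∧
      ∀ j, ∃ l : ℝ → ℂ, IsEdgeOf (SJ j) 2 (frobLift θ F (H j)) 0 l) ∧
    ∀ (l : I → ℝ → ℂ) (lH : J → ℝ → ℂ),
      (∀ i, IsEdgeOf (SI i) 2 (frobLift θ F (R i)) 0 (l i)) →
      (∀ j, IsEdgeOf (SJ j) 2 (frobLift θ F (H j)) 0 (lH j)) →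
      (∀ (i : I) (Λ : Set (Ideal (𝓞 K))),
        (∀ s : Gal(Ω/ℚ), ∀ N ∈ Λ, conjIdeal s N ∈ Λ) →
        [∃ j, lvl j ∈ Λ ∧ ∀ v, (pr v : ℕ) ∉ SI i ∪ SJ j → (aE i v : k) = a j v,
          ∃ j, lvl j ∈ Λ ∧ ∃ T : Finset ℕ, ∀ v, (pr v : ℕ) ∉ T → (aE i v : k) = a j v,
          DependentOn (l i) fun j : {j // lvl j ∈ Λ} => lH j,
          ¬ IndependentOf (l i) fun j : {j // lvl j ∈ Λ} => lH j].TFAE) ∧
      (∀ k' : Subfield ℂ, (k' : Set ℂ).Countable → ∀ᵐ t : ℝ, AlgebraicIndependent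
        (IntermediateField.adjoin k' (valSet (fun j => lH j t) t))
        fun i : {i : I // ∀ (j : J) (T : Finset ℕ),
          ∃ v, (pr v : ℕ) ∉ T ∧ (aE i v : k) ≠ a j v} => l i t) := by
  have htr : ∀ i v, (pr v : ℕ) ∉ SI i → (R i (F v)).val.trace = (aE i v : k) ∧
      (R i (F v)).val.det = ((nm v : ℕ) : k) := fun i => attached_iff.1 (hE i)
  have hdet : ∀ i v, (pr v : ℕ) ∉ SI i → (R i (F v)).val.det = ((nm v : ℕ) : k) :=
    fun i v hv => (htr i v hv).2
  have hst : ∀ j (s : Gal(Ω/ℚ)), IsIn H ((H j).comp (conjBy K s)) := fun j s => by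
    obtain ⟨j', -, h⟩ := hstab j s
    exact ⟨j', h⟩
  refine ⟨⟨fun i => exists_edgeOf_le (unram_mono hS₀ (hSI i)) (frobLift_sys hθ1 F (R i) _),
    fun j => exists_edgeOf_le (unram_mono hS₀ (hSJ j)) (frobLift_sys hθ1 F (H j) _)⟩,
    fun l lH hl hlH => ?_⟩
  have hmain := fun i Λ hΛ => conc_levels hS₀ hF hθ hθ1 (actL := conjIdeal) hSJ hH hHirr hatt
      hstab hSI hR hRirr hdet hl hlH i Λ hΛ
  refine ⟨fun i Λ hΛ => ?_, fun k' hk' => ?_⟩
  · have h := hmain i Λ hΛ
    have h24 := h.out 1 3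
    have h34 := h.out 2 3
    have h45 := h.out 3 4
    tfae_have 1 → 2 := by
      rintro ⟨j, hj, h⟩
      exact ⟨j, hj, _, h⟩
    tfae_have 2 → 3 := by
      rintro ⟨j, hj, T, h⟩
      refine h34.1 ⟨j, hj, T ∪ SI i, fun v hv => ?_⟩
      rw [Finset.mem_union, not_or] at hv
      rw [(htr i v hv.2).1, h v hv.1]
    tfae_have 3 → 1 := by
      intro h
      obtain ⟨j, hj, h1⟩ := h24.2 h
      refine ⟨j, hj, fun v hv => ?_⟩
      have hv' := hv
      rw [Finset.mem_union, not_or] at hv'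
      rw [← h1 v hv, (htr i v hv'.1).1]
    tfae_have 3 ↔ 4 := h45
    tfae_finish
  · obtain ⟨-, h2⟩ := main_conc hS₀ hF hθ hθ1 hR hRirr hH hHirr hst hSI hSJ hl hlH
    have h4 : (fun i : I => ∀ (j : J) (T : Finset ℕ),
          ∃ v, (pr v : ℕ) ∉ T ∧ (aE i v : k) ≠ a j v) =
        fun i => ¬ IsIn H (R i) := by
      funext i
      have h5 := (hmain i Set.univ fun _ _ _ => trivial).out 0 2
      have h6 : IsIn H (R i) ↔ ∃ j, ∃ T : Finset ℕ, ∀ v, (pr v : ℕ) ∉ T → (aE i v : k) = a j v := by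
        constructor
        · rintro ⟨j, hj⟩
          obtain ⟨j', -, T, h7⟩ := h5.1 ⟨j, trivial, hj⟩
          refine ⟨j', T ∪ SI i, fun v hv => ?_⟩
          rw [Finset.mem_union, not_or] at hv
          rw [← h7 v hv.1, (htr i v hv.2).1]
        · rintro ⟨j, T, h7⟩
          obtain ⟨j', -, h8⟩ := h5.2 ⟨j, trivial, T ∪ SI i, fun v hv => by
            rw [Finset.mem_union, not_or] at hv
            rw [(htr i v hv.2).1, h7 v hv.1]⟩
          exact ⟨j', h8⟩
      rw [h6]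
      push Not
      rfl
    have h5 := h2 hnc k' hk'
    rw [← h4] at h5
    exact h5

end Pool.Agent.Results.MP_3099cf_nt.CongruencesOnTheEdge
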